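import Mathlib
import Pool.Agent.V7H99.SY.S6
import Pool.Agent.V7H99.SY.S7

set_option autoImplicit false

/-!
# The prime number theorem for almost all digit symmetries

Let `b ≥ 3`.  A `b`-palindrome with `k` digits is a number with `d_{k-1-i} = d_i` for all `i < k / 2`.
We replace the identity by random permutations of the digits: let `(π_ω)` be a finite family of
permutations of the digits `0, ..., b - 1` such that for a uniformly random `ω`

* (Fair) every digit is mapped to every digit with probability `1 / b`;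
* (Rigid) a real `b × b` matrix with vanishing row and column sums which is constant on the graph of
  every `π_ω` is zero.

(For example all permutations, or any 2-transitive family; or the shifts `x ↦ x + c`, composed with a
fixed transposition of two neighbouring digits with a probability `δ > 0`, however small.)  Let
`ω_0, ω_1, ...` be independent and uniformly distributed.  Then almost surely the number of
primes with `k` digits and `d_{k-1-i} = π_{ω_i}(d_i)` for all `i < k / 2` is asymptotic to the
expected number.  Outside of a set of probability at most `k ^ (-A)` the relative error is at most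
`k ^ (-A)` (with logarithmic weights).

Proof.  The second moment of the error over the random symmetry is expanded into quadratic forms,
one for each set `T` of places; (Fair), (Rigid) and the Schur product theorem bound the form of `T` by
`λ ^ |T|` times the sum of the squares of all sums `∑ (Λ - model)(n) e(∑ w_j d_j(n) / b)` whose
frequencies `w` are nonzero exactly at the places `i` and `k - 1 - i`, `i ∈ T`.  For `|T| > C log k`
Parseval suffices.  For `|T| ≤ C log k` with a place `m = C (log k) ^ 2 ≤ i` the sums over primes are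
estimated by the Fourier expansion of the digit function modulo `b ^ k`, with Vinogradov's estimate on
the minor arcs and the vanishing of the local factor at the place `i` on the major arcs.  If all places
are smaller than `m` the primes in the residue classes modulo `b ^ m` (of size `exp (C (log log x) ^ 2)`)
and short intervals are counted with a Siegel-Walfisz type theorem for the powers of `b`.
-/

namespace Pool.Agent.Results.MP_e8d2ce_nt.AlmostAllSymmetriesH99

open MeasureTheory Filter Topology
open scoped ENNReal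

/-- the digit of `n` in base `b` at the place `j` (place `0` is the lowest) -/
def digit (b : ℕ) [NeZero b] (j n : ℕ) : Fin b := Fin.ofNat b (n / b ^ j)

/-- `n` has exactly `k` digits in base `b`, and `σ i` maps the digit at the place `i` to the digit at
the place `k - 1 - i`, for every `i < k / 2`; for `σ = 1` these are the palindromes -/
def HasSymmetry (b : ℕ) [NeZero b] (k : ℕ) (σ : ℕ → Equiv.Perm (Fin b)) (n : ℕ) : Prop :=
  b ^ (k - 1) ≤ n ∧ n < b ^ k ∧ ∀ i < k / 2, σ i (digit b i n) = digit b (k - 1 - i) n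

/-- the number of primes with `k` digits and the symmetry `σ` -/
noncomputable def primeCount (b : ℕ) [NeZero b] (k : ℕ) (σ : ℕ → Equiv.Perm (Fin b)) : ℕ :=
  {p : ℕ | p.Prime ∧ HasSymmetry b k σ p}.ncard

/-- the sum of `log p` over the primes with `k` digits and the symmetry `σ` -/
noncomputable def primeSum (b : ℕ) [NeZero b] (k : ℕ) (σ : ℕ → Equiv.Perm (Fin b)) : ℝ :=
  ∑ᶠ p ∈ {p : ℕ | p.Prime ∧ HasSymmetry b k σ p}, Real.log p

/-- the number of digits which are coprime to `b` and which `τ` does not map to `0` -/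
noncomputable def unitDigits (b : ℕ) [NeZero b] (τ : Equiv.Perm (Fin b)) : ℕ :=
  {x : Fin b | x.val.Coprime b ∧ τ x ≠ 0}.ncard

/-- every digit is mapped to every digit with probability `1 / b` -/
def Fair {b : ℕ} {Ω : Type} [Fintype Ω] (π : Ω → Equiv.Perm (Fin b)) : Prop :=
  ∀ x y : Fin b, b * {ω : Ω | π ω x = y}.ncard = Fintype.card Ω

/-- a matrix with vanishing row and column sums which is constant on every graph is zero -/
def Rigid {b : ℕ} {Ω : Type} (π : Ω → Equiv.Perm (Fin b)) : Prop :=
  ∀ f : Fin b → Fin b → ℝ, (∀ x, ∑ y, f x y = 0) → (∀ y, ∑ x, f x y = 0) →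
    (∀ ω x x', f x (π ω x) = f x' (π ω x')) → ∀ x y, f x y = 0

/-- the law of a sequence of independent, uniformly distributed elements of `Ω` -/
noncomputable def uniformSeq (Ω : Type) [Fintype Ω] [Nonempty Ω] [MeasurableSpace Ω] :
    Measure (ℕ → Ω) :=
  Measure.infinitePi (fun _ : ℕ => (PMF.uniformOfFintype Ω).toMeasure)

/-- the family `x ↦ x + c` (for `j ≥ r`) and `x ↦ τ x + c` (for `j < r`), indexed by
`(c, j)` with `j < s`: for a random index `τ` is applied with probability `r / s` -/
def twistedShifts {b : ℕ} [NeZero b] (τ : Equiv.Perm (Fin b)) (r s : ℕ) (p : Fin b × Fin s) :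
    Equiv.Perm (Fin b) :=
  (if p.2.val < r then τ else 1).trans (Equiv.addRight p.1)

open scoped Classical in
lemma set_eq (b : ℕ) [NeZero b] (k : ℕ) (σ : ℕ → Equiv.Perm (Fin b)) :
    {p : ℕ | p.Prime ∧ HasSymmetry b k σ p} = ↑((Finset.range (b ^ k)).filter (fun n => n.Prime ∧ b ^ (k - 1) ≤ n ∧
      V7H99.SY.SymC (b := b) k (fun i : Fin (k / 2) => σ i) n)) := by
  ext n
  rw [Finset.mem_coe, Finset.mem_filter, Finset.mem_range]
  constructor
  · rintro ⟨h1, h2, h3, h4⟩
    exact ⟨h3, h1, h2, fun i => h4 i i.2⟩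
  · rintro ⟨h3, h1, h2, h4⟩
    exact ⟨h1, h2, h3, fun i hi => h4 ⟨i, hi⟩⟩

lemma primeCount_eq (b : ℕ) [NeZero b] (k : ℕ) (σ : ℕ → Equiv.Perm (Fin b)) :
    primeCount b k σ = V7H99.SY.PC b k (fun i : Fin (k / 2) => σ i) := by
  unfold primeCount
  rw [set_eq, Set.ncard_coe_finset]
  rfl

lemma primeSum_eq (b : ℕ) [NeZero b] (k : ℕ) (σ : ℕ → Equiv.Perm (Fin b)) :
    primeSum b k σ = V7H99.SY.TT b k (fun i : Fin (k / 2) => σ i) := by
  unfold primeSum
  rw [set_eq, finsum_mem_coe_finset, V7H99.SY.TT_eq]

lemma unitDigits_eq (b : ℕ) [NeZero b] (τ : Equiv.Perm (Fin b)) : unitDigits b τ = V7H99.SY.cc b τ := by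
  unfold unitDigits V7H99.SY.cc
  rw [← Set.ncard_coe_finset]
  congr 1
  ext x
  rw [Finset.mem_coe, Finset.mem_filter]
  simp

lemma unitDigits_ge (b : ℕ) [NeZero b] (τ : Equiv.Perm (Fin b)) : Nat.totient b ≤ unitDigits b τ + 1 := by
  classical
  have h1 : {x : Fin b | x.val.Coprime b ∧ τ x ≠ 0} =
      ↑(((Finset.univ : Finset (Fin b)).filter (fun x => x.val.Coprime b)).erase (τ.symm 0)) := by
    ext x
    rw [Finset.mem_coe, Finset.mem_erase, Finset.mem_filter]
    constructor
    · rintro ⟨h1, h2⟩
      refine ⟨fun h => h2 ?_, Finset.mem_univ _, h1⟩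
      rw [h, Equiv.apply_symm_apply]
    · rintro ⟨h1, _, h2⟩
      refine ⟨h2, fun h => h1 ?_⟩
      rw [← h, Equiv.symm_apply_apply]
  have h2 : ((Finset.univ : Finset (Fin b)).filter (fun x => x.val.Coprime b)).card = Nat.totient b := by
    rw [Nat.totient_eq_card_coprime]
    refine Finset.card_nbij (fun x => x.val) ?_ ?_ ?_
    · intro x hx
      rw [Finset.mem_coe, Finset.mem_filter] at hx
      rw [Finset.mem_coe, Finset.mem_filter, Finset.mem_range]
      exact ⟨x.2, hx.2.symm⟩
    · intro x _ y _ h
      exact Fin.ext h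
    · intro a ha
      rw [Finset.mem_coe, Finset.mem_filter, Finset.mem_range] at ha
      exact ⟨⟨a, ha.1⟩, by rw [Finset.mem_coe, Finset.mem_filter]; exact ⟨Finset.mem_univ _, ha.2.symm⟩, rfl⟩
  unfold unitDigits
  rw [h1, Set.ncard_coe_finset, ← h2]
  have := Finset.pred_card_le_card_erase (s := (Finset.univ : Finset (Fin b)).filter (fun x => x.val.Coprime b)) (a := τ.symm 0)
  omega

lemma fair_iff {b : ℕ} {Ω : Type} [Fintype Ω] (π : Ω → Equiv.Perm (Fin b)) : Fair π ↔ V7H99.SY.Trans π := by
  unfold Fair V7H99.SY.Trans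
  apply forall_congr'; intro x
  apply forall_congr'; intro y
  rw [← Set.ncard_coe_finset]
  simp

/-- **The prime number theorem for almost all digit symmetries.** -/
theorem result (b : ℕ) [NeZero b] (hb : 3 ≤ b) :
    (∀ (Ω : Type) [Fintype Ω] [Nonempty Ω] [MeasurableSpace Ω] [MeasurableSingletonClass Ω]
      (π : Ω → Equiv.Perm (Fin b)), Fair π → Rigid π →
      (∀ A : ℕ, ∃ K₀ : ℕ, ∀ k : ℕ, K₀ ≤ k →
        uniformSeq Ω {ω | (b : ℝ) ^ (k - k / 2) / (k : ℝ) ^ A <
          |primeSum b k (fun i => π (ω i)) -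
            unitDigits b (π (ω 0)) / (Nat.totient b : ℝ) * (b : ℝ) ^ (k - k / 2)|} ≤
          ENNReal.ofReal (1 / (k : ℝ) ^ A)) ∧
      (∀ᵐ ω ∂(uniformSeq Ω), Tendsto (fun k : ℕ =>
        (primeCount b k (fun i => π (ω i)) : ℝ) * (k * Real.log b) / (b : ℝ) ^ (k - k / 2)) atTop
        (𝓝 (unitDigits b (π (ω 0)) / (Nat.totient b : ℝ))))) ∧
    (∀ τ : Equiv.Perm (Fin b), 1 ≤ unitDigits b τ ∧ Nat.totient b ≤ unitDigits b τ + 1) ∧
    (Fair (fun g : Equiv.Perm (Fin b) => g) ∧ Rigid (fun g : Equiv.Perm (Fin b) => g)) ∧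
    (∀ (τ : Equiv.Perm (Fin b)) (r s : ℕ), 1 ≤ r → r < s →
      (∃ x x' : Fin b, (x - τ x) - (x' - τ x') = 1) →
      Fair (twistedShifts τ r s) ∧ Rigid (twistedShifts τ r s)) := by
  refine ⟨?_, ?_, ⟨?_, ?_⟩, ?_⟩
  · intro Ω _ _ _ _ π hF hR
    rw [fair_iff] at hF
    constructor
    · intro A
      obtain ⟨K₀, _, h⟩ := V7H99.SY.prob_est hb hF hR A
      refine ⟨K₀, fun k hk => le_trans (le_of_eq ?_) (h k hk)⟩
      simp only [primeSum_eq, unitDigits_eq]
      unfold uniformSeq V7H99.SY.PM
      congr 1
      ext ω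
      rw [Set.mem_ofPred_eq, Set.mem_ofPred_eq, mul_comm_div, mul_comm]
    · have h := V7H99.SY.as_lim hb hF hR
      simp only [primeCount_eq, unitDigits_eq]
      exact h
  · intro τ
    have h1 := unitDigits_ge b τ
    have h2 : 2 ≤ Nat.totient b := by
      obtain ⟨c, hc⟩ := Nat.totient_even (show 2 < b by omega)
      have h3 : 0 < Nat.totient b := Nat.totient_pos.2 (by omega)
      omega
    exact ⟨by omega, h1⟩
  · rw [fair_iff]; exact V7H99.SY.trans_perm
  · exact V7H99.SY.rigid_perm hb
  · intro τ r s hr hrs hτ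
    rw [fair_iff]
    exact ⟨V7H99.SY.trans_tw τ r s, V7H99.SY.rigid_tw hr hrs hτ⟩

end Pool.Agent.Results.MP_e8d2ce_nt.AlmostAllSymmetriesH99
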