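import Mathlib
import Pool.Agent.V7H46.PLF.S5
import Pool.Agent.V7H46.PLF.S6

/-!
# The largest prime factor of palindromes

(1) In every base `b ≥ 2` the proportion of the palindromes `n` with `2 N + 1` digits which have a prime factor above
`n ^ θ` is at least `1 - ∏_{i < k} θ / (1 - i θ) - ε` for large `N`, as soon as `k θ < 1 / 4`, or `b ≥ 64` and
`b ^ (2 k θ) (2 + (2 / π) log b) < b` (so that `k θ` may tend to `1 / 2` as `b` grows).  With `k = 1` this is
`1 - θ - ε`.  The proof is Chebyshev's method, with `k`-th moments of `∑_{q ∣ n} Λ(q)`, from the level of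
distribution of the palindromes and the rarity of palindromes divisible by large squares.

(2) In every base `b ≥ 3`, for every `θ > 0` with `b ^ (2 θ) (b + 1) < 2 ⌊(b + 1) / 2⌋ ⌊(b + 2) / 2⌋`, at least
`(3 b / 4) ^ N` of the palindromes `n` with `2 N + 1` digits have a prime factor larger than `n ^ θ`, for large `N`.
In base ten every `θ ≤ 0.368` is allowed.
-/

set_option autoImplicit false

namespace Pool.Agent.Results.MP_e8d2ce_nt.LargePrimeFactorH46

open Finset Filter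

/-- the base-`b` palindromes with exactly `2 N + 1` digits -/
def pal (b N : ℕ) : Finset ℕ :=
  (range (b ^ (2 * N + 1))).filter (fun n => b ^ (2 * N) ≤ n ∧ (Nat.digits b n).reverse = Nat.digits b n)

open Classical in
/-- those palindromes `n` with exactly `2 N + 1` digits which have a prime factor larger than `n ^ θ` -/
noncomputable def palLarge (b N : ℕ) (θ : ℝ) : Finset ℕ :=
  (pal b N).filter (fun n => ∃ p : ℕ, p.Prime ∧ p ∣ n ∧ (n : ℝ) ^ θ < (p : ℝ))

theorem _root_.Pool.Agent.Results.MP_e8d2ce_nt.LargePrimeFactorH46.result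
    (b : ℕ) (θ : ℝ) (hθ0 : 0 < θ) :
    (2 ≤ b → ∀ k : ℕ, 1 ≤ k →
      (k * θ < 1 / 4 ∨ (64 ≤ b ∧ (b : ℝ) ^ (2 * k * θ) * (2 + 2 / Real.pi * Real.log b) < b)) →
      ∀ ε : ℝ, 0 < ε → ∀ᶠ N : ℕ in atTop,
        (1 - ∏ i ∈ range k, θ / (1 - i * θ) - ε) * ((pal b N).card : ℝ) ≤
          ((palLarge b N θ).card : ℝ)) ∧
    (3 ≤ b → (b : ℝ) ^ (2 * θ) * (b + 1) < 2 * (((b + 1) / 2 : ℕ) : ℝ) * (((b + 2) / 2 : ℕ) : ℝ) →
      ∀ᶠ N : ℕ in atTop, (3 * (b : ℝ) / 4) ^ N ≤ ((palLarge b N θ).card : ℝ)) := by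
  refine ⟨fun hb k hk hθ ε hε => ?_, fun hb hθ => ?_⟩
  · rcases hθ with hθ | ⟨h64, hθ⟩
    · exact Pool.Agent.V7H46.PLF.large_quarter hb hθ0 hk hθ hε
    · exact Pool.Agent.V7H46.PLF.large_unif h64 hθ0 hk hθ hε
  · exact Pool.Agent.V7H46.PLF.large_weighted hb hθ0 hθ

end Pool.Agent.Results.MP_e8d2ce_nt.LargePrimeFactorH46
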