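import Pool.Agent.V7H56.PB.Fin

/-!
# Prime and almost prime values of tuples of polynomials at palindromes: the order of magnitude

Let `b ≥ 2` and let `F_1, …, F_k` be irreducible polynomials with integral coefficients, of positive degree and
pairwise not associated (for `F_1 = X` the first condition below is that the palindrome `n` itself is a prime), such that
no prime `p ∤ 2 b` divides `F_1(r) ⋯ F_k(r)` for all `r`. We consider the palindromes `n` with `2 N + 1` digits to the
base `b` whose `N - L` leading digits are prescribed, where `L₀ ≤ L < N`; there are `b ^ (L + 1)` of them, and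
this number may be much smaller than any power of `n`, even bounded.

**Theorem.** (1) The number of these palindromes for which all the prime factors of all the numbers `F_i(n)` are larger
than `b ^ (L / B)` is at most `C b ^ L / L ^ k`.

(2) The number of these palindromes for which all the `F_i(n)` are (up to the sign) primes is at most
`C b ^ L / L ^ k`, which is the conjectured order of magnitude (Hardy-Littlewood, Bateman-Horn).

(3) If there is no local obstruction at the primes which divide `2 b` (that is, if the `F_i(d)` are prime to `b`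
for the leading digit `d`, which is the last digit of the palindromes, and, when `b` is odd, the `F_i(e)` are
odd), then at least `c b ^ L / L ^ k` of the palindromes with middle digit `e` have the property that all the
`F_i(n)` have at most `B N / L` prime factors, all larger than `b ^ (L / B)`.

(4), (5) For all palindromes with `2 N + 1` digits together: all `F_i(n)` are primes for at most `C b ^ N / N ^ k`
of them, and all `F_i(n)` have at most `2 B` prime factors for at least `c b ^ N / N ^ k` of them
(if there is a leading digit `d` and a digit `e` as in (3)).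

The starting results of the page treat the palindromes `n` themselves (`k = 1`), and a lower bound
`c b ^ L / L ^ B`, with an unspecified exponent `B`, for the number of `n` for which `n F(n)` has few prime factors. Here
the order of magnitude is obtained from above and from below, for all `k`. For `k = 1`, `F_1 = X` the theorem of Col is
(4) and (5).

Proof. The two-sided sieve of dimension `deg (F_1 ⋯ F_k) + 1` of the starting library (`R471.PP.svG2`), with the level
of distribution of palindromes with prescribed leading and middle digits (`R471.PP.VE_class`, `er_finalK`), and the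
order of magnitude of the sieve product, which is `(log z) ^ (-k)`: the number of zeros of `F_i` modulo `p` is one in
the mean (Mertens' theorem for number fields, `H474R2.GE.mertens_rho`), and the `F_i` have no common zeros modulo large
primes.
-/

set_option autoImplicit false

namespace Pool.Agent.Results.MP_e8d2ce_nt.PolynomialTuplesH56

open Finset Polynomial

/-- the `b`-palindromes with exactly `2 N + 1` base `b` digits -/
def Pal (b N : ℕ) : Finset ℕ :=
  (Ico (b ^ (2 * N)) (b ^ (2 * N + 1))).filter (fun n : ℕ => (Nat.digits b n).reverse = Nat.digits b n)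

/-- the `b`-palindromes with exactly `2 N + 1` digits which have the same `N - L` leading digits as `x` -/
def Win (b N L x : ℕ) : Finset ℕ :=
  (Pal b N).filter (fun n : ℕ => n / b ^ (N + L + 1) = x / b ^ (N + L + 1))

/-- every prime factor `p` of `m` satisfies `p ^ B > y` -/
def Rough (B y : ℕ) (m : ℤ) : Prop := ∀ p : ℕ, p.Prime → (p : ℤ) ∣ m → y < p ^ B

/-- the number of prime factors with multiplicity -/
def Om (m : ℤ) : ℕ := m.natAbs.primeFactorsList.length

open Classical in
theorem result (b : ℕ) (hb : 2 ≤ b) (k : ℕ) (F : Fin k → ℤ[X]) (hirr : ∀ i, Irreducible (F i))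
    (hdeg : ∀ i, 0 < (F i).natDegree) (hne : ∀ i j, i ≠ j → ¬ Associated (F i) (F j))
    (hloc : ∀ p : ℕ, p.Prime → ¬ p ∣ 2 * b → ∃ r : ℕ, ∀ i, ¬ (p : ℤ) ∣ (F i).eval (r : ℤ)) :
    ∃ c C : ℝ, 0 < c ∧ 0 < C ∧ ∃ B L₀ : ℕ,
    (∀ L N x : ℕ, L₀ ≤ L → L < N → b ^ (2 * N) ≤ x → x < b ^ (2 * N + 1) →
      (#((Win b N L x).filter (fun n : ℕ => ∀ i, Rough B (b ^ L) ((F i).eval (n : ℤ)))) : ℝ) ≤
        C * (b : ℝ) ^ L / (L : ℝ) ^ k ∧
      (#((Win b N L x).filter (fun n : ℕ => ∀ i, Prime ((F i).eval (n : ℤ)))) : ℝ) ≤
        C * (b : ℝ) ^ L / (L : ℝ) ^ k ∧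
      (∀ e : ℕ, e < b → (∀ i, IsCoprime ((F i).eval ((x / b ^ (2 * N) : ℕ) : ℤ)) (b : ℤ)) →
        (Even b ∨ ∀ i, Odd ((F i).eval (e : ℤ))) →
        c * (b : ℝ) ^ L / (L : ℝ) ^ k ≤ (#((Win b N L x).filter (fun n : ℕ => n / b ^ N % b = e ∧ ∀ i,
          (F i).eval (n : ℤ) ≠ 0 ∧ Rough B (b ^ L) ((F i).eval (n : ℤ)) ∧
          Om ((F i).eval (n : ℤ)) * L ≤ B * N)) : ℝ))) ∧
    (∀ N : ℕ, L₀ < N →
      (#((Pal b N).filter (fun n : ℕ => ∀ i, Prime ((F i).eval (n : ℤ)))) : ℝ) ≤
        C * (b : ℝ) ^ N / (N : ℝ) ^ k ∧
      (∀ d e : ℕ, 1 ≤ d → d < b → e < b → (∀ i, IsCoprime ((F i).eval (d : ℤ)) (b : ℤ)) →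
        (Even b ∨ ∀ i, Odd ((F i).eval (e : ℤ))) →
        c * (b : ℝ) ^ N / (N : ℝ) ^ k ≤ (#((Pal b N).filter (fun n : ℕ => ∀ i,
          (F i).eval (n : ℤ) ≠ 0 ∧ Om ((F i).eval (n : ℤ)) ≤ 2 * B)) : ℝ))) := by
  obtain ⟨c, C, hc, hC, B, L₀, h1, h2⟩ := Pool.Agent.V7H56.PB.final hb F hirr hdeg hne hloc
  have hW : ∀ N L x, Pool.Agent.V7H56.PB.Wd b N L x = Win b N L x := by
    intro N L x
    unfold Pool.Agent.V7H56.PB.Wd Win Pal
    rw [filter_filter]
  refine ⟨c, C, hc, hC, B, L₀, fun L N x hL hN hx1 hx2 => ?_, fun N hN => ?_⟩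
  · have h3 := h1 L N x hL hN hx1 hx2
    rw [hW] at h3
    exact h3
  · exact h2 N hN

end Pool.Agent.Results.MP_e8d2ce_nt.PolynomialTuplesH56
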