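import Mathlib
import Pool.Agent.V7H16.GD.Fin

/-!
# Almost prime palindromes with digits in arbitrary sets which depend on the place

The digits of a palindrome with `2 N + 1` digits are determined by the digits at the distances `c = 0, 1, …, N` from
the middle.  We prescribe the first `K + 1` digits (a number `w`), the middle digit `e`, and for every
`1 ≤ c < N - K` an arbitrary set `D c` of admissible digits.

A set `D` of digits is *rich* if there are at least `s` digits `x` such that `x, x + 1, …, x + t - 1` all belong to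
`D`, where `s > 2 b / 3`.  If, for all `J`, at most `δ J + C` of the sets `D 1, …, D J` are poor (they may consist of one
digit, so that some of the digits are prescribed), then there are many palindromes with at most `r` prime factors and
digits in these sets, where `r` depends only on `b, s, t` and on `θ ≥ K / N`.

A set which contains all digits but `h` is rich for `s = b + 1 - (h + 1) t`.  So in base 10 one may forbid one digit at
every place (the digit depends on the place) and has at most five prime factors, or three digits at every place and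
has at most nine prime factors; and for every `h` and every base `b > (3 (h + 1)) ^ 4` one may forbid `h` digits at
every place and has at most three prime factors.
-/

set_option autoImplicit false

namespace Pool.Agent.Results.MP_e8d2ce_nt.RestrictedDigitsH16

open Finset Filter

/-- the elements `x` of `D` such that `x, x + 1, …, x + t - 1` all belong to `D` -/
def starts (D : Finset ℕ) (t : ℕ) : Finset ℕ := D.filter (fun x => ∀ j < t, x + j ∈ D)

open Classical in
/-- the numbers `n < b ^ (2 N + 1)` whose first `K + 1` digits (if there are `2 N + 1` digits) form `w`, whose digit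
sequence is equal to its reverse, whose digit at the place `N` is `e`, whose digits at the places `N + c` and `N - c`
are in `D c` for `1 ≤ c < N - K`, and which have at most `r` prime factors counted with multiplicity, all larger than
`z` -/
noncomputable def Pals (b N K w e : ℕ) (D : ℕ → Finset ℕ) (r : ℕ) (z : ℝ) : Finset ℕ :=
  (range (b ^ (2 * N + 1))).filter (fun n => n / b ^ (2 * N - K) = w ∧
    (Nat.digits b n).reverse = Nat.digits b n ∧ n / b ^ N % b = e ∧
    (∀ c, 1 ≤ c → c < N - K → n / b ^ (N + c) % b ∈ D c ∧ n / b ^ (N - c) % b ∈ D c) ∧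
    n.primeFactorsList.length ≤ r ∧ ∀ p ∈ n.primeFactorsList, z < p)

lemma starts_lt {b t : ℕ} {D : Finset ℕ} (ht : 1 ≤ t) (hD : ∀ x ∈ D, x < b) : ∀ x ∈ starts D t, x + t ≤ b := by
  intro x hx
  unfold starts at hx
  rw [mem_filter] at hx
  have := hD _ (hx.2 (t - 1) (by omega))
  omega

theorem main (b s t r : ℕ) (κ θ : ℝ) (hb : 3 ≤ b) (h23 : 2 * b < 3 * s) (ht : 1 ≤ t) (hbst : s + t ≤ b + 1)
    (hθ0 : 0 ≤ θ) (hθ1 : θ < 1) (hκ0 : 0 < κ) (hκ : (b : ℝ) ^ κ * (s + t) < 2 * s * t)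
    (hr : 20466 / 10000 ≤ κ * ((r : ℝ) - 182 / 1000) * (1 - θ)) :
    ∃ δ : ℝ, 0 < δ ∧ ∀ C : ℝ, ∀ᶠ N : ℕ in atTop, ∀ K : ℕ, (K : ℝ) ≤ θ * N →
      ∀ w : ℕ, b ^ K ≤ w → w < b ^ (K + 1) → (w / b ^ K).Coprime b → ∀ e < b, (Even b ∨ Odd e) →
      ∀ D : ℕ → Finset ℕ, (∀ c, 1 ≤ c → c < N - K → (D c).Nonempty ∧ ∀ x ∈ D c, x < b) →
      (∀ J < N - K, (((Icc 1 J).filter (fun c => (starts (D c) t).card < s)).card : ℝ) ≤ δ * J + C) →
      (2 * (b : ℝ) / 3) ^ ((Ico 1 (N - K)).filter (fun c => s ≤ (starts (D c) t).card)).card ≤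
        ((Pals b N K w e D r ((b : ℝ) ^ (κ * ((N - K : ℕ) : ℝ) / 7))).card : ℝ) := by
  classical
  have h0 : 0 < 1 - θ := by linarith
  have hs1 : 1 ≤ s := by omega
  have hs0 : (0 : ℝ) < s := by exact_mod_cast hs1
  have ht0 : (0 : ℝ) < t := by exact_mod_cast ht
  have hH : (b : ℝ) ^ κ * Pool.Agent.W89.PW.HH s t < 1 := by
    unfold Pool.Agent.W89.PW.HH
    rw [show (b : ℝ) ^ κ * ((1 / (s : ℝ) + 1 / t) / 2) = ((b : ℝ) ^ κ * (s + t)) / (2 * s * t) by
      field_simp; ring]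
    rw [div_lt_one (by positivity)]
    exact hκ
  have hr0 : 0 < (r : ℝ) - 182 / 1000 := by
    by_contra hcon
    push Not at hcon
    have h1 : κ * ((r : ℝ) - 182 / 1000) ≤ 0 := mul_nonpos_of_nonneg_of_nonpos hκ0.le hcon
    have h2 : κ * ((r : ℝ) - 182 / 1000) * (1 - θ) ≤ 0 := mul_nonpos_of_nonpos_of_nonneg h1 h0.le
    linarith
  have hr' : 1 / (8466 / 10000 : ℝ) + 88 / (43 * κ * (1 - θ)) < r + 1 := by
    have h3 : 88 / (43 * κ * (1 - θ)) ≤ (88 / 43) / (20466 / 10000) * ((r : ℝ) - 182 / 1000) := by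
      have h4 : 0 < 43 * κ * (1 - θ) := by positivity
      rw [div_le_iff₀ h4]
      have h5 : (88 / 43) / (20466 / 10000) * ((r : ℝ) - 182 / 1000) * (43 * κ * (1 - θ)) =
          88 / (20466 / 10000) * (κ * ((r : ℝ) - 182 / 1000) * (1 - θ)) := by ring
      rw [h5]
      have h6 := mul_le_mul_of_nonneg_left hr (show (0 : ℝ) ≤ 88 / (20466 / 10000) by norm_num)
      have h7 : (88 : ℝ) / (20466 / 10000) * (20466 / 10000) = 88 := by norm_num
      linarith
    have h8 : (88 / 43 : ℝ) / (20466 / 10000) * ((r : ℝ) - 182 / 1000) ≤ (r : ℝ) - 182 / 1000 :=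
      mul_le_of_le_one_left hr0.le (by norm_num)
    norm_num
    norm_num at h3 h8
    linarith
  obtain ⟨δ, hδ, hmain⟩ := Pool.Agent.V7H16.GD.rdG (b := b) (s := s) (t := t) (r := r) (κ := κ)
    (lam := 8466 / 10000) (η := κ / 7) (θ := θ) hb h23 ht hbst hκ0 hH (by norm_num) (by norm_num)
    (by norm_num) hθ0 hθ1 hr' (by linarith)
  refine ⟨δ, hδ, ?_⟩
  intro C
  filter_upwards [hmain (max C 0) (le_max_right _ _), eventually_gt_atTop 0] with N hN hN0 K hK w hw1 hw2 hw3 e he heo D hD hsp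
  obtain ⟨L, hL⟩ : ∃ L, N - K - 1 = L := ⟨_, rfl⟩
  -- the sets of digits
  set P : ℕ → Prop := fun c => c < L → s ≤ (starts (D (c + 1)) t).card with hP
  obtain ⟨S, hS⟩ : ∃ S : ℕ → Finset ℕ, ∀ c, (S c).card = s ∧ (∀ x ∈ S c, x + t ≤ b) ∧
      (c < L → P c → S c ⊆ starts (D (c + 1)) t) := by
    apply Classical.axiom_of_choice (r := fun (c : ℕ) (T : Finset ℕ) => T.card = s ∧ (∀ x ∈ T, x + t ≤ b) ∧
      (c < L → P c → T ⊆ starts (D (c + 1)) t))
    intro c
    by_cases hc : c < L ∧ P c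
    · obtain ⟨T, hT1, hT2⟩ := exists_subset_card_eq (hc.2 hc.1)
      refine ⟨T, hT2, fun x hx => ?_, fun _ _ => hT1⟩
      exact starts_lt ht (hD (c + 1) (by omega) (by omega)).2 x (hT1 hx)
    · refine ⟨range s, card_range s, fun x hx => ?_, fun h1 h2 => absurd ⟨h1, h2⟩ hc⟩
      rw [mem_range] at hx
      omega
  obtain ⟨φ, hφA, hφσ⟩ := Pool.Agent.V7H16.GD.exists_fam hb h23 ht S (fun c => (hS c).1) (fun c => (hS c).2.1)
    (fun c => decide (P c))
  have hA : ∀ c, φ.A c = true ↔ P c := by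
    intro c
    rw [hφA]
    exact decide_eq_true_iff
  -- sparsity
  have hnf : ∀ J, Pool.Agent.V7H16.GD.nf φ J ≤
      ((Icc 1 (min J L)).filter (fun c => (starts (D c) t).card < s)).card := by
    intro J
    unfold Pool.Agent.V7H16.GD.nf
    apply card_le_card_of_injOn (fun c => c + 1)
    · intro c hc
      rw [mem_coe, mem_filter, mem_range, hA] at hc
      obtain ⟨h1, h2⟩ := hc
      simp only [hP] at h2
      push Not at h2
      have h3 := h2.1
      rw [mem_coe, mem_filter, mem_Icc]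
      exact ⟨⟨Nat.le_add_left 1 c, le_min h1 h3⟩, h2.2⟩
    · intro x _ y _ h
      exact Nat.succ_injective h
  have hNK : 0 < N - K := by
    by_contra hcon
    have h1 : (N : ℝ) ≤ K := by exact_mod_cast (by omega : N ≤ K)
    have h2 : (0 : ℝ) < N := by exact_mod_cast hN0
    nlinarith
  have hsp' : Pool.Agent.V7H16.GD.Sp φ δ (max C 0) := by
    intro J
    have h1 := hsp (min J L) (by omega)
    have h2 : (Pool.Agent.V7H16.GD.nf φ J : ℝ) ≤
      ((Icc 1 (min J L)).filter (fun c => (starts (D c) t).card < s)).card := by exact_mod_cast hnf J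
    have h3 : δ * ((min J L : ℕ) : ℝ) ≤ δ * J := by
      apply mul_le_mul_of_nonneg_left _ hδ.le
      exact_mod_cast min_le_left J L
    have h4 := le_max_left C 0
    linarith
  -- the fixed digits
  obtain ⟨g, hg⟩ : ∃ g : ℕ → ℕ, ∀ c, c < L → g c ∈ D (c + 1) := by
    refine ⟨fun c => if h : (D (c + 1)).Nonempty then h.choose else 0, fun c hc => ?_⟩
    have h1 := (hD (c + 1) (by omega) (by omega)).1
    simp only [dif_pos h1]
    exact h1.choose_spec
  have hmain' := hN K hK w hw1 hw2 hw3 e he heo φ hsp' g (fun c hc _ =>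
    (hD (c + 1) (by omega) (by omega)).2 _ (hg c (by omega)))
  rw [hL] at hmain'
  have hfc : Pool.Agent.V7H16.GD.fc φ L = ((Ico 1 (N - K)).filter (fun c => s ≤ (starts (D c) t).card)).card := by
    unfold Pool.Agent.V7H16.GD.fc
    apply card_bij (fun c _ => c + 1)
    · intro c hc
      rw [mem_filter, mem_range, hA] at hc
      rw [mem_filter, mem_Ico]
      exact ⟨by omega, hc.2 hc.1⟩
    · intro x _ y _ h
      exact Nat.succ_injective h
    · intro c hc
      rw [mem_filter, mem_Ico] at hc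
      refine ⟨c - 1, ?_, by omega⟩
      have h1 : c - 1 + 1 = c := by omega
      rw [mem_filter, mem_range, hA]
      simp only [hP]
      rw [h1]
      exact ⟨by omega, fun _ => hc.2⟩
  rw [← hfc]
  refine hmain'.trans ?_
  have hsub : ∀ S T : Finset ℕ, S ⊆ T → (S.card : ℝ) ≤ T.card := fun S T h => by exact_mod_cast card_le_card h
  apply hsub
  intro n hn
  unfold Pals
  rw [mem_filter] at hn ⊢
  obtain ⟨h1, h2, h3, h4, h5, h6, h7⟩ := hn
  have hadm : ∀ c x, c < L → Pool.Agent.V7H16.GD.Adm φ g c x → x ∈ D (c + 1) := by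
    intro c x hc hx
    by_cases hAc : φ.A c = true
    · obtain ⟨i, j, rfl⟩ := hx.1 hAc
      have h8 := (hS c).2.2 hc ((hA c).1 hAc) (hφσ c i)
      unfold starts at h8
      rw [mem_filter] at h8
      exact h8.2 j j.is_lt
    · rw [hx.2 hAc]
      exact hg c hc
  refine ⟨h1, h2, h3, h4, fun c hc1 hc2 => ?_, h6, fun p hp => ?_⟩
  · have h8 := h5 (c - 1) (by omega)
    have h9 : c - 1 + 1 = c := by omega
    rw [h9] at h8
    have h10 := hadm (c - 1) _ (by omega) h8.1
    have h11 := hadm (c - 1) _ (by omega) h8.2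
    rw [h9] at h10 h11
    exact ⟨h10, h11⟩
  · have := h7 p hp
    rw [show κ * ((N - K : ℕ) : ℝ) / 7 = κ / 7 * ((N - K : ℕ) : ℝ) by ring]
    exact this

/-- a set of all digits but `h` has many `x` with `x, …, x + t - 1 ∈ D` -/
lemma starts_card {b h t : ℕ} {D : Finset ℕ} (ht : 1 ≤ t) (hD : ∀ x ∈ D, x < b) (hc : b ≤ D.card + h) :
    b + 1 ≤ (starts D t).card + (h + 1) * t := by
  have hM : (range b \ D).card ≤ h := by
    rw [card_sdiff_of_subset (fun x hx => mem_range.2 (hD x hx)), card_range]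
    omega
  have h1 : range (b + 1 - t) ⊆ starts D t ∪
      (range t).biUnion (fun j => (range (b + 1 - t)).filter (fun x => x + j ∈ range b \ D)) := by
    intro x hx
    rw [mem_range] at hx
    rw [mem_union, mem_biUnion]
    by_cases hs : ∃ j < t, x + j ∉ D
    · obtain ⟨j, hj, hj2⟩ := hs
      right
      refine ⟨j, mem_range.2 hj, ?_⟩
      rw [mem_filter, mem_range, Finset.mem_sdiff, mem_range]
      exact ⟨hx, by omega, hj2⟩
    · push Not at hs
      left
      unfold starts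
      rw [mem_filter]
      exact ⟨by simpa using hs 0 ht, hs⟩
  have h2 := (card_le_card h1).trans (card_union_le _ _)
  have h3 : ((range t).biUnion (fun j => (range (b + 1 - t)).filter (fun x => x + j ∈ range b \ D))).card ≤
      t * h := by
    refine card_biUnion_le.trans ?_
    calc ∑ j ∈ range t, ((range (b + 1 - t)).filter (fun x => x + j ∈ range b \ D)).card
        ≤ ∑ j ∈ range t, h := by
          apply sum_le_sum
          intro j _
          refine le_trans ?_ hM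
          apply card_le_card_of_injOn (fun x => x + j)
          · intro x hx
            rw [mem_coe, mem_filter] at hx
            exact mem_coe.2 hx.2
          · intro x _ y _ hxy
            exact Nat.add_right_cancel hxy
      _ = t * h := by rw [sum_const, card_range, smul_eq_mul]
  rw [card_range] at h2
  have h4 : (h + 1) * t = t * h + t := by ring
  omega

lemma Pals_mono {b N K w e : ℕ} {D : ℕ → Finset ℕ} {r : ℕ} {z z' : ℝ} (h : z' ≤ z) :
    ((Pals b N K w e D r z).card : ℝ) ≤ (Pals b N K w e D r z').card := by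
  have : Pals b N K w e D r z ⊆ Pals b N K w e D r z' := by
    intro n hn
    unfold Pals at hn ⊢
    rw [mem_filter] at hn ⊢
    obtain ⟨h1, h2, h3, h4, h5, h6, h7⟩ := hn
    exact ⟨h1, h2, h3, h4, h5, h6, fun p hp => lt_of_le_of_lt h (h7 p hp)⟩
  exact_mod_cast card_le_card this

/-- all but `h` digits are admissible at every place -/
theorem cor (b s t h r : ℕ) (κ θ η : ℝ) (hb : 3 ≤ b) (h23 : 2 * b < 3 * s) (ht : 1 ≤ t)
    (hbst : s + (h + 1) * t = b + 1)
    (hθ0 : 0 ≤ θ) (hθ1 : θ < 1) (hκ0 : 0 < κ) (hκ : (b : ℝ) ^ κ * (s + t) < 2 * s * t)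
    (hr : 20466 / 10000 ≤ κ * ((r : ℝ) - 182 / 1000) * (1 - θ)) (hη : η ≤ κ * (1 - θ) / 7) :
    ∀ᶠ N : ℕ in atTop, ∀ K : ℕ, (K : ℝ) ≤ θ * N →
      ∀ w : ℕ, b ^ K ≤ w → w < b ^ (K + 1) → (w / b ^ K).Coprime b → ∀ e < b, (Even b ∨ Odd e) →
      ∀ D : ℕ → Finset ℕ, (∀ c, 1 ≤ c → c < N - K → (∀ x ∈ D c, x < b) ∧ b ≤ (D c).card + h) →
      (2 * (b : ℝ) / 3) ^ (N - K - 1) ≤ ((Pals b N K w e D r ((b : ℝ) ^ (η * (N : ℝ)))).card : ℝ) := by
  obtain ⟨δ, hδ, hmain⟩ := main b s t r κ θ hb h23 ht (by nlinarith) hθ0 hθ1 hκ0 hκ hr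
  filter_upwards [hmain 0, eventually_gt_atTop 0] with N hN hN0 K hK w hw1 hw2 hw3 e he heo D hD
  have hrich : ∀ c, 1 ≤ c → c < N - K → s ≤ (starts (D c) t).card := by
    intro c h1 h2
    have h3 := hD c h1 h2
    have := starts_card (t := t) ht h3.1 h3.2
    omega
  have hh : h + 1 ≤ b := by
    have h1 : (h + 1) * 1 ≤ (h + 1) * t := Nat.mul_le_mul_left _ ht
    omega
  have hmain' := hN K hK w hw1 hw2 hw3 e he heo D (fun c h1 h2 => by
    refine ⟨?_, (hD c h1 h2).1⟩
    rw [← card_pos]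
    have := (hD c h1 h2).2
    omega) (fun J hJ => by
      have h1 : ((Icc 1 J).filter (fun c => (starts (D c) t).card < s)) = ∅ := by
        rw [filter_eq_empty_iff]
        intro c hc
        rw [mem_Icc] at hc
        have := hrich c hc.1 (by omega)
        omega
      rw [h1, card_empty]
      push_cast
      positivity)
  have h1 : (Ico 1 (N - K)).filter (fun c => s ≤ (starts (D c) t).card) = Ico 1 (N - K) := by
    rw [filter_eq_self]
    intro c hc
    rw [mem_Ico] at hc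
    exact hrich c hc.1 hc.2
  rw [h1, Nat.card_Ico] at hmain'
  refine hmain'.trans (Pals_mono ?_)
  have hbR : (1 : ℝ) ≤ b := by exact_mod_cast (by omega : 1 ≤ b)
  apply Real.rpow_le_rpow_of_exponent_le hbR
  have hKN : K ≤ N := by
    have h2 : (K : ℝ) ≤ N := by
      have h3 : (0 : ℝ) ≤ N := Nat.cast_nonneg N
      nlinarith
    exact_mod_cast h2
  rw [Nat.cast_sub hKN]
  have h2 : (0 : ℝ) ≤ N := Nat.cast_nonneg N
  have h3 : η * N ≤ κ * (1 - θ) / 7 * N := mul_le_mul_of_nonneg_right hη h2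
  have h4 : κ * ((1 - θ) * N) ≤ κ * ((N : ℝ) - K) := mul_le_mul_of_nonneg_left (by linarith) hκ0.le
  linarith

lemma rpow_lt_of {x y : ℝ} (hx : 0 ≤ x) (hy : 0 ≤ y) (m n : ℕ) (hn : 0 < n) (h : x ^ m < y ^ n) :
    x ^ ((m : ℝ) / n) < y := by
  apply lt_of_pow_lt_pow_left₀ n hy
  rw [← Real.rpow_natCast, ← Real.rpow_mul hx]
  have : (m : ℝ) / n * n = m := by field_simp
  rw [this, Real.rpow_natCast]
  exact h

/-- **Almost prime palindromes with digits in arbitrary sets which depend on the place.** -/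
theorem result :
    -- the general theorem
    (∀ (b s t r : ℕ) (κ θ : ℝ), 3 ≤ b → 2 * b < 3 * s → 1 ≤ t → s + t ≤ b + 1 → 0 ≤ θ → θ < 1 → 0 < κ →
      (b : ℝ) ^ κ * (s + t) < 2 * s * t → 20466 / 10000 ≤ κ * ((r : ℝ) - 182 / 1000) * (1 - θ) →
      ∃ δ : ℝ, 0 < δ ∧ ∀ C : ℝ, ∀ᶠ N : ℕ in atTop, ∀ K : ℕ, (K : ℝ) ≤ θ * N →
        ∀ w : ℕ, b ^ K ≤ w → w < b ^ (K + 1) → (w / b ^ K).Coprime b → ∀ e < b, (Even b ∨ Odd e) →
        ∀ D : ℕ → Finset ℕ, (∀ c, 1 ≤ c → c < N - K → (D c).Nonempty ∧ ∀ x ∈ D c, x < b) →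
        (∀ J < N - K, (((Icc 1 J).filter (fun c => (starts (D c) t).card < s)).card : ℝ) ≤ δ * J + C) →
        (2 * (b : ℝ) / 3) ^ ((Ico 1 (N - K)).filter (fun c => s ≤ (starts (D c) t).card)).card ≤
          ((Pals b N K w e D r ((b : ℝ) ^ (κ * ((N - K : ℕ) : ℝ) / 7))).card : ℝ)) ∧
    -- sets of all digits but `h` are rich
    (∀ (b h t : ℕ) (D : Finset ℕ), 1 ≤ t → (∀ x ∈ D, x < b) → b ≤ D.card + h →
      b + 1 ≤ (starts D t).card + (h + 1) * t) ∧
    -- base 10, one forbidden digit at every place: at most 5 prime factors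
    (∀ᶠ N : ℕ in atTop, ∀ K : ℕ, 8 * K ≤ N → ∀ w : ℕ, 10 ^ K ≤ w → w < 10 ^ (K + 1) → (w / 10 ^ K).Coprime 10 →
      ∀ e < 10, ∀ D : ℕ → Finset ℕ, (∀ c, 1 ≤ c → c < N - K → (∀ x ∈ D c, x < 10) ∧ 9 ≤ (D c).card) →
      (20 / 3 : ℝ) ^ (N - K - 1) ≤ ((Pals 10 N K w e D 5 ((10 : ℝ) ^ ((N : ℝ) / 17))).card : ℝ)) ∧
    -- base 10, three forbidden digits at every place: at most 9 prime factors
    (∀ᶠ N : ℕ in atTop, ∀ K : ℕ, 32 * K ≤ N → ∀ w : ℕ, 10 ^ K ≤ w → w < 10 ^ (K + 1) → (w / 10 ^ K).Coprime 10 →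
      ∀ e < 10, ∀ D : ℕ → Finset ℕ, (∀ c, 1 ≤ c → c < N - K → (∀ x ∈ D c, x < 10) ∧ 7 ≤ (D c).card) →
      (20 / 3 : ℝ) ^ (N - K - 1) ≤ ((Pals 10 N K w e D 9 ((10 : ℝ) ^ ((N : ℝ) / 31))).card : ℝ)) ∧
    -- large bases, `h` forbidden digits at every place: at most 3 prime factors
    (∀ h b : ℕ, (3 * (h + 1)) ^ 4 < b → ∀ᶠ N : ℕ in atTop, ∀ K : ℕ, 32 * K ≤ N →
      ∀ w : ℕ, b ^ K ≤ w → w < b ^ (K + 1) → (w / b ^ K).Coprime b → ∀ e < b, (Even b ∨ Odd e) →
      ∀ D : ℕ → Finset ℕ, (∀ c, 1 ≤ c → c < N - K → (∀ x ∈ D c, x < b) ∧ b ≤ (D c).card + h) →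
      (2 * (b : ℝ) / 3) ^ (N - K - 1) ≤ ((Pals b N K w e D 3 ((b : ℝ) ^ ((N : ℝ) / 10))).card : ℝ)) := by
  refine ⟨main, fun b h t D ht hD hc => starts_card ht hD hc, ?_, ?_, ?_⟩
  · have hκ : ((10 : ℕ) : ℝ) ^ (49 / 100 : ℝ) * (((7 : ℕ) : ℝ) + ((2 : ℕ) : ℝ)) <
        2 * ((7 : ℕ) : ℝ) * ((2 : ℕ) : ℝ) := by
      have h1 := rpow_lt_of (x := 10) (y := 28 / 9) (by norm_num) (by norm_num) 49 100 (by norm_num) (by norm_num)
      push_cast at h1 ⊢
      linarith
    filter_upwards [cor 10 7 2 1 5 (49 / 100) (1 / 8) (1 / 17) (by norm_num) (by norm_num) (by norm_num) (by norm_num)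
      (by norm_num) (by norm_num) (by norm_num) hκ (by norm_num) (by norm_num)] with N hN K hK w hw1 hw2 hw3 e he D hD
    have h1 : (K : ℝ) ≤ 1 / 8 * N := by
      have : (8 : ℝ) * K ≤ N := by exact_mod_cast hK
      linarith
    have h2 := hN K h1 w hw1 hw2 hw3 e he (Or.inl (by decide)) D (fun c hc1 hc2 => by
      have := hD c hc1 hc2
      exact ⟨this.1, by omega⟩)
    push_cast at h2
    rw [show (20 / 3 : ℝ) = 2 * 10 / 3 by norm_num, show (N : ℝ) / 17 = 1 / 17 * N by ring]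
    exact h2
  · have hκ : ((10 : ℕ) : ℝ) ^ (24 / 100 : ℝ) * (((7 : ℕ) : ℝ) + ((1 : ℕ) : ℝ)) <
        2 * ((7 : ℕ) : ℝ) * ((1 : ℕ) : ℝ) := by
      have h1 := rpow_lt_of (x := 10) (y := 7 / 4) (by norm_num) (by norm_num) 24 100 (by norm_num) (by norm_num)
      push_cast at h1 ⊢
      linarith
    filter_upwards [cor 10 7 1 3 9 (24 / 100) (1 / 32) (1 / 31) (by norm_num) (by norm_num) (by norm_num) (by norm_num)
      (by norm_num) (by norm_num) (by norm_num) hκ (by norm_num) (by norm_num)] with N hN K hK w hw1 hw2 hw3 e he D hD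
    have h1 : (K : ℝ) ≤ 1 / 32 * N := by
      have : (32 : ℝ) * K ≤ N := by exact_mod_cast hK
      linarith
    have h2 := hN K h1 w hw1 hw2 hw3 e he (Or.inl (by decide)) D (fun c hc1 hc2 => by
      have := hD c hc1 hc2
      exact ⟨this.1, by omega⟩)
    push_cast at h2
    rw [show (20 / 3 : ℝ) = 2 * 10 / 3 by norm_num, show (N : ℝ) / 31 = 1 / 31 * N by ring]
    exact h2
  · intro h b hbh
    obtain ⟨H, hH⟩ : ∃ H, h + 1 = H := ⟨_, rfl⟩
    rw [hH] at hbh
    have hH1 : 1 ≤ H := by omega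
    obtain ⟨t, ht⟩ : ∃ t, b / (3 * H) = t := ⟨_, rfl⟩
    have h3H : 3 * H ≤ (3 * H) ^ 4 := Nat.le_self_pow (by norm_num) _
    have ht1 : 1 ≤ t := by
      rw [← ht]
      exact Nat.div_pos (by omega) (by omega)
    have ht2 : 3 * (H * t) ≤ b := by
      rw [← ht]
      have := Nat.mul_div_le b (3 * H)
      nlinarith
    have ht3 : b < 3 * (H * t) + 3 * H := by
      rw [← ht]
      have := Nat.lt_mul_div_succ b (show 0 < 3 * H by omega)
      nlinarith
    obtain ⟨s, hs⟩ : ∃ s, b + 1 - H * t = s := ⟨_, rfl⟩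
    have hst : s + H * t = b + 1 := by omega
    have hb3 : 81 < b := by
      have : (3 * 1) ^ 4 ≤ (3 * H) ^ 4 := Nat.pow_le_pow_left (by omega) 4
      omega
    have h23 : 2 * b < 3 * s := by omega
    have hκ : (b : ℝ) ^ (3 / 4 : ℝ) * (s + t) < 2 * s * t := by
      obtain ⟨y, hy⟩ : ∃ y : ℝ, (b : ℝ) ^ (1 / 4 : ℝ) = y := ⟨_, rfl⟩
      have hb0 : (0 : ℝ) ≤ b := Nat.cast_nonneg b
      have hy0 : 0 ≤ y := by rw [← hy]; positivity
      have hy4 : (b : ℝ) = y ^ 4 := by
        rw [← hy, ← Real.rpow_natCast, ← Real.rpow_mul hb0]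
        norm_num
      have hy3 : (b : ℝ) ^ (3 / 4 : ℝ) = y ^ 3 := by
        rw [← hy, ← Real.rpow_natCast, ← Real.rpow_mul hb0]
        norm_num
      have hyH : 3 * (H : ℝ) < y := by
        apply lt_of_pow_lt_pow_left₀ 4 hy0
        rw [← hy4]
        exact_mod_cast hbh
      have hH1R : (1 : ℝ) ≤ H := by exact_mod_cast hH1
      have e1 : (s : ℝ) + t ≤ y ^ 4 + 1 := by
        rw [← hy4]
        have : s + t ≤ b + 1 := by nlinarith
        exact_mod_cast this
      have e2 : 2 * y ^ 4 ≤ 3 * (s : ℝ) := by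
        rw [← hy4]
        exact_mod_cast h23.le
      have e3 : y ^ 4 - 3 * H ≤ 3 * H * (t : ℝ) := by
        rw [← hy4]
        have : (b : ℝ) < 3 * (H * t) + 3 * H := by exact_mod_cast ht3
        linarith
      rw [hy3]
      have hy1 : 3 < y := by linarith
      have hy40 : 81 * (H : ℝ) ≤ y ^ 4 := by
        have h5 : (3 * (H : ℝ)) ^ 4 ≤ y ^ 4 := pow_le_pow_left₀ (by positivity) hyH.le 4
        have h6 : (3 * (H : ℝ)) ^ 4 = 81 * H * H ^ 3 := by ring
        have h7 : 1 ≤ (H : ℝ) ^ 3 := one_le_pow₀ hH1R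
        nlinarith
      -- `9 H y ^ 3 (y ^ 4 + 1) < 4 y ^ 4 (y ^ 4 - 3 H)`
      have e4 : 9 * H * (y ^ 4 + 1) < 4 * y * (y ^ 4 - 3 * H) := by
        have h5 : 0 < y ^ 4 - 3 * H := by linarith
        have h6 : 12 * H * (y ^ 4 - 3 * H) < 4 * y * (y ^ 4 - 3 * H) :=
          mul_lt_mul_of_pos_right (by linarith) h5
        have h7 : 9 * H * (y ^ 4 + 1) ≤ 12 * H * (y ^ 4 - 3 * H) := by
          have h8 : 9 * (y ^ 4 + 1) ≤ 12 * (y ^ 4 - 3 * H) := by linarith
          nlinarith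
        linarith
      have e5 : y ^ 3 * (9 * H * (y ^ 4 + 1)) < y ^ 3 * (4 * y * (y ^ 4 - 3 * H)) :=
        mul_lt_mul_of_pos_left e4 (by positivity)
      have e6 : 2 * (2 * y ^ 4) * (y ^ 4 - 3 * H) ≤ 2 * (3 * (s : ℝ)) * (3 * H * (t : ℝ)) := by
        apply mul_le_mul _ e3 (by linarith) (by positivity)
        linarith
      have e7 : 9 * H * (y ^ 3 * ((s : ℝ) + t)) ≤ 9 * H * (y ^ 3 * (y ^ 4 + 1)) := by gcongr
      have e8 : 9 * (H : ℝ) * (y ^ 3 * ((s : ℝ) + t)) < 9 * H * (2 * s * t) := by nlinarith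
      exact lt_of_mul_lt_mul_left e8 (by positivity)
    filter_upwards [cor b s t h 3 (3 / 4) (1 / 32) (1 / 10) (by omega) h23 ht1 (by rw [hH]; exact hst)
      (by norm_num) (by norm_num) (by norm_num) hκ (by norm_num) (by norm_num)] with N hN K hK w hw1 hw2 hw3 e he heo D hD
    have h1 : (K : ℝ) ≤ 1 / 32 * N := by
      have : (32 : ℝ) * K ≤ N := by exact_mod_cast hK
      linarith
    have h2 := hN K h1 w hw1 hw2 hw3 e he heo D hD
    rw [show (N : ℝ) / 10 = 1 / 10 * N by ring]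
    exact h2

end Pool.Agent.Results.MP_e8d2ce_nt.RestrictedDigitsH16
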